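import Mathlib

set_option autoImplicit false

open Set Topology Filter Cardinal

namespace Pool.Agent.Helper425.LA

/-- A compact Hausdorff space of cardinality at most `κ`, where `κ` is at least the continuum and
`κ ^ ℵ₀ = κ` is not assumed, has at most `κ ^ ℵ₀` continuous real functions.
Proof: for each pair `x ≠ y` choose a continuous function `g x y : X → ℝ` with value `0` at `x`
and `1` at `y` (Urysohn, `exists_continuous_zero_one_of_isClosed`); the subalgebra
`Algebra.adjoin ℝ` of the set `G` of these functions has cardinality at most `max (#G) 𝔠`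
(`Algebra.cardinalMk_adjoin_le` or `Cardinal.mk_algebra_adjoin_le` or via MvPolynomial
`MvPolynomial.cardinalMk_le_max`), and it separates points, so it is dense by Stone-Weierstrass
(`ContinuousMap.subalgebra_topologicalClosure_eq_top_of_separatesPoints`). `C(X, ℝ)` is a metric
space, so every element is a limit of a sequence of elements of the subalgebra
(`mem_closure_iff_seq_limit`), and limits are unique: choosing such a sequence is an injection
`C(X, ℝ) → (ℕ → subalgebra)`. -/
theorem card_C (X : Type) [TopologicalSpace X] [CompactSpace X] [T2Space X] (κ : Cardinal.{0})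
    (hκ : Cardinal.continuum ≤ κ) (hX : #X ≤ κ) : #(C(X, ℝ)) ≤ κ ^ (ℵ₀ : Cardinal.{0}) := by
  classical
  have hU : ∀ p : {p : X × X // p.1 ≠ p.2}, ∃ f : C(X, ℝ), f p.1.1 = 0 ∧ f p.1.2 = 1 := by
    intro p
    obtain ⟨f, h0, h1, _⟩ := exists_continuous_zero_one_of_isClosed (X := X)
      (isClosed_singleton (x := p.1.1)) (isClosed_singleton (x := p.1.2))
      (Set.disjoint_singleton.2 p.2)
    exact ⟨f, h0 rfl, h1 rfl⟩
  choose g hg using hU
  have hω : ℵ₀ ≤ κ := aleph0_le_continuum.trans hκ
  have hA : #(Algebra.adjoin ℝ (Set.range g)) ≤ κ := by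
    refine (Algebra.cardinalMk_adjoin_le ℝ (Set.range g)).trans
      (max_le (max_le ?_ ?_) hω)
    · rw [Cardinal.mk_real]
      exact hκ
    · refine mk_range_le.trans ((mk_subtype_le _).trans ?_)
      rw [mk_prod, lift_id]
      calc #X * #X ≤ κ * κ := mul_le_mul' hX hX
        _ = κ := mul_eq_self hω
  have hsep : (Algebra.adjoin ℝ (Set.range g)).SeparatesPoints := by
    intro x y hxy
    refine ⟨_, ⟨g ⟨(x, y), hxy⟩, Algebra.subset_adjoin ⟨_, rfl⟩, rfl⟩, ?_⟩
    have h := hg ⟨(x, y), hxy⟩
    show (g ⟨(x, y), hxy⟩) x ≠ (g ⟨(x, y), hxy⟩) y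
    rw [h.1, h.2]
    exact zero_ne_one
  have hlim : ∀ f : C(X, ℝ), ∃ u : ℕ → Algebra.adjoin ℝ (Set.range g),
      Tendsto (fun n => (u n : C(X, ℝ))) atTop (𝓝 f) := by
    intro f
    have h1 := ContinuousMap.continuousMap_mem_subalgebra_closure_of_separatesPoints _ hsep f
    have h2 : f ∈ closure ((Algebra.adjoin ℝ (Set.range g) : Subalgebra ℝ C(X, ℝ)) :
        Set C(X, ℝ)) := h1
    obtain ⟨u, hu, hu'⟩ := mem_closure_iff_seq_limit.1 h2
    exact ⟨fun n => ⟨u n, hu n⟩, hu'⟩
  choose u hu using hlim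
  have hinj : Function.Injective u := by
    intro f f' h
    have h1 := hu f
    rw [h] at h1
    exact tendsto_nhds_unique h1 (hu f')
  calc #(C(X, ℝ)) ≤ #(ℕ → Algebra.adjoin ℝ (Set.range g)) := mk_le_of_injective hinj
    _ = #(Algebra.adjoin ℝ (Set.range g)) ^ ℵ₀ := by
        rw [← Cardinal.power_def, mk_nat]
    _ ≤ κ ^ (ℵ₀ : Cardinal.{0}) := power_le_power_right hA

end Pool.Agent.Helper425.LA
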