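import Mathlib

set_option autoImplicit false

open Set Topology Filter Cardinal

namespace Pool.Agent.Helper425.LA

/-- arities -/
def bet26808 (A : Type) : Option A → Type
  | none => ℕ
  | some _ => Empty

open Classical in
/-- one step of the evaluation -/
noncomputable def step26808 {X : Type} [TopologicalSpace X] (A : Set X) (x0 : X) :
    (Σ o : Option A, bet26808 A o → X) → X
  | ⟨none, f⟩ => if h : ∃ x, Tendsto (fun n : ℕ => f n) atTop (𝓝 x) then h.choose else x0
  | ⟨some a, _⟩ => (a : X)

/-- In a sequential Hausdorff space the closure of a set of cardinality at most `κ`, `κ ^ ℵ₀ = κ`,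
has cardinality at most `κ`.
Proof: consider the well-founded trees `W := WType β` with shapes `α := Option A`
(`β (some a) = Empty` (leaves), `β none = ℕ`), which has cardinality at most `κ` by
`WType.cardinalMk_le_of_le'` (or `WType.cardinalMk_le_of_le`), since
`#A * κ ^ 0 + κ ^ ℵ₀ ≤ κ`. Evaluate: `ev : W → X` by `WType.elim` (recursion): a leaf `some a` goes
to `a`, a node `none` with children `w n` goes to a limit of the sequence `ev (w n)` if it
converges, and to an arbitrary element otherwise (use `Classical.epsilon` or `if h : ∃ x, Tendsto ..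
then h.choose else default`; if `A` is empty the closure is empty, so one may assume `A`, and hence
`X`, nonempty). The range of `ev` contains `A` and is sequentially closed (limits are unique in a
T2 space), so it is closed (`IsSeqClosed.isClosed`) and contains `closure A`. Any other proof, for
example by recursion of length `ω₁`, is fine as well. -/
theorem card_closure (X : Type) [TopologicalSpace X] [T2Space X] [SequentialSpace X]
    (κ : Cardinal.{0}) (hκ : κ ^ (ℵ₀ : Cardinal.{0}) = κ) (hκ2 : 2 ≤ κ) (A : Set X) (hA : #A ≤ κ) :
    #(closure A) ≤ κ := by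
  classical
  have hκinf : ℵ₀ ≤ κ := by
    rw [← hκ]
    calc (ℵ₀ : Cardinal.{0}) ≤ 2 ^ (ℵ₀ : Cardinal.{0}) := (Cardinal.cantor _).le
      _ ≤ κ ^ (ℵ₀ : Cardinal.{0}) := Cardinal.power_le_power_right hκ2
  rcases A.eq_empty_or_nonempty with hAe | ⟨x0, hx0⟩
  · subst hAe
    rw [closure_empty]
    simp
  set ev : WType (bet26808 A) → X := WType.elim X (step26808 A x0) with hev
  have hcard : #(WType (bet26808 A)) ≤ κ := by
    apply WType.cardinalMk_le_of_le
    have h1 : ∀ o : Option A, κ ^ #(bet26808 A o) ≤ κ := by
      intro o
      cases o with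
      | none =>
        show κ ^ #ℕ ≤ κ
        rw [Cardinal.mk_nat, hκ]
      | some a =>
        show κ ^ #Empty ≤ κ
        simp only [Cardinal.mk_empty, Cardinal.power_zero]
        exact (Cardinal.one_le_aleph0).trans hκinf
    calc (Cardinal.sum fun o : Option A => κ ^ #(bet26808 A o))
        ≤ Cardinal.sum fun _ : Option A => κ := Cardinal.sum_le_sum _ _ h1
      _ = #(Option A) * κ := by simp
      _ ≤ κ * κ := by
          refine mul_le_mul_left ?_ _
          rw [Cardinal.mk_option]
          exact Cardinal.add_le_of_le hκinf hA ((Cardinal.one_le_aleph0).trans hκinf)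
      _ = κ := Cardinal.mul_eq_self hκinf
  have hsub : A ⊆ Set.range ev := by
    intro a ha
    refine ⟨WType.mk (some ⟨a, ha⟩) (fun e => Empty.elim e), ?_⟩
    rfl
  have hseq : IsSeqClosed (Set.range ev) := by
    intro x p hx hp
    choose w hw using hx
    refine ⟨WType.mk none w, ?_⟩
    have hex : ∃ y, Tendsto (fun n : ℕ => ev (w n)) atTop (𝓝 y) := by
      refine ⟨p, ?_⟩
      simpa only [hw] using hp
    have e1 : ev (WType.mk none w) = if h : ∃ y, Tendsto (fun n : ℕ => ev (w n)) atTop (𝓝 y)
        then h.choose else x0 := rfl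
    rw [e1, dif_pos hex]
    have h2 := hex.choose_spec
    refine tendsto_nhds_unique h2 ?_
    simpa only [hw] using hp
  have hcl : closure A ⊆ Set.range ev := closure_minimal hsub hseq.isClosed
  calc #(closure A) ≤ #(Set.range ev) := Cardinal.mk_le_mk_of_subset hcl
    _ ≤ #(WType (bet26808 A)) := Cardinal.mk_range_le
    _ ≤ κ := hcard

end Pool.Agent.Helper425.LA
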