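import Mathlib
import Pool.Agent.Helper937.Dya3

set_option autoImplicit false

open Set Topology Filter Cardinal

namespace Pool.Agent.Helper425.LA

open Pool.Agent.Helper937.Dya Pool.Agent.Helper937.Fact

/-- Counting criterion. This is a variant of `Pool.Agent.Helper937.Dya.main_cover` (see its proof in
`Pool/Agent/Helper937/Dya3.lean`, which can be copied up to the definition of `A'`; only `ℵ₁` many
members `q w`, `w : W1`, of the set `J` are needed, an embedding `q : W1 ↪ J`). With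
`A' := ⋃ w, A (q w).1`, `#A' ≤ ℵ₁`. For every `B : Set W1` choose by `hpat` and surjectivity of `φ`
a `g B : Cp X` with `φ (g B) ∈ Cl e φ (q j).1.1 (q j).1.2.2` for `j ∈ B` and
`φ (g B) ∈ Cl e φ (q j).1.1 (q j).1.2.1` for `j ∉ B`. So `f (q j).1 (φ (g B))` is `1` for `j ∈ B`
and `0` for `j ∉ B`. If `g B` and `g B'` agree on `A'`, then `B = B'`: if `j ∈ B`, then
`hfac` for `g B` and `Ioi (1/2)` gives a box containing `g B`, with support in `A'`, so it contains
`g B'` too (`Box G b` only depends on the values on `G`), so `f (q j).1 (φ (g B')) > 1/2` and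
`j ∈ B'`; symmetric. Hence `B ↦ A'.restrict (g B).1` is an injection of `Set W1` into the range
below and `2 ^ ℵ₁ = #(Set W1) ≤ #(range ..)`, contradicting `hX A'`. -/
theorem main_card (X : Type) [TopologicalSpace X] [CompactSpace X] [T2Space X]
    (hX : ∀ A : Set X, #A ≤ ℵ₁ →
      #(Set.range (fun g : Cp X => A.restrict g.1)) < 2 ^ (ℵ₁ : Cardinal.{0}))
    (Y : Type) [TopologicalSpace Y] [CompactSpace Y] [T2Space Y] (φ : Cp X → Y)
    (hφ : Continuous φ) (hs : Function.Surjective φ) : TopologicalSpace.MetrizableSpace Y := by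
  classical
  let e : Cp X → X → ℝ := fun f => f.1
  have hd : DenseRange e := denseRange_Cp X
  have he : IsInducing e := IsInducing.subtypeVal
  by_cases hg : ∃ A : Set X, A.Countable ∧ Good e φ A
  · obtain ⟨A, hA, hgood⟩ := hg
    exact metrizable_of_good e φ he hφ hs A hA hgood
  exfalso
  obtain ⟨J, hJ, hsep, hpat⟩ := dichotomy e φ hd hg
  -- Urysohn functions
  have hur : ∀ p ∈ J, ∃ (f : C(Y, ℝ)) (A : Set X), A.Countable ∧
      EqOn f 0 (Cl e φ p.1 p.2.1) ∧ EqOn f 1 (Cl e φ p.1 p.2.2) ∧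
      ∀ (s : Cp X) (U : Set ℝ), IsOpen U → f (φ s) ∈ U →
        ∃ (G : Finset X) (b : X → BB), (G : Set X) ⊆ A ∧ e s ∈ Box G b ∧
          ∀ z : Cp X, e z ∈ Box G b → f (φ z) ∈ U := by
    intro p hp
    obtain ⟨f, h1, h2, h3⟩ := exists_continuous_zero_one_of_isClosed
      (s := Cl e φ p.1 p.2.1) (t := Cl e φ p.1 p.2.2) isClosed_closure isClosed_closure (hsep p hp)
    have hK : CTight (Set.Icc (0:ℝ) 1) := by
      intro A x hx
      obtain ⟨s, hs, hs2⟩ := mem_closure_iff_seq_limit.mp hx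
      refine ⟨range s, range_subset_iff.mpr hs, countable_range s, ?_⟩
      exact mem_closure_of_tendsto hs2 (Filter.Eventually.of_forall fun n => mem_range_self n)
    let ψ : Cp X → Set.Icc (0:ℝ) 1 := fun s => ⟨f (φ s), h3 (φ s)⟩
    have hψ : Continuous ψ := (f.continuous.comp hφ).subtype_mk _
    obtain ⟨A, hA, hfac⟩ := factor e ψ he hd hK hψ
    refine ⟨f, A, hA, h1, h2, fun s U hU hsU => ?_⟩
    obtain ⟨G, b, hG, hb, himg⟩ := hfac s (Subtype.val ⁻¹' U) (hU.preimage continuous_subtype_val) hsU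
    exact ⟨G, b, hG, hb, fun z hz => himg z hz⟩
  choose! f A hAc hf0 hf1 hfac using hur
  have hcard : #W1 ≤ #J := by
    rw [mk_W1]
    have : ℵ₀ < #J := by
      rw [← not_le, Cardinal.le_aleph0_iff_set_countable]
      exact hJ
    rw [← Cardinal.succ_aleph0]
    exact Order.succ_le_of_lt this
  obtain ⟨q⟩ : Nonempty (W1 ↪ J) := hcard
  let A' : Set X := ⋃ w : W1, A (q w).1
  have hA' : #A' ≤ ℵ₁ := by
    refine (Cardinal.mk_iUnion_le_sum_mk).trans ?_
    refine (Cardinal.sum_le_sum _ (fun _ => ℵ₀) (fun w =>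
      Cardinal.le_aleph0_iff_set_countable.mpr (hAc _ (q w).2))).trans ?_
    rw [Cardinal.sum_const', mk_W1]
    exact (mul_le_mul' le_rfl Cardinal.aleph0_lt_aleph_one.le).trans
      (Cardinal.mul_eq_self (Cardinal.aleph0_le_aleph 1)).le
  have hpat' : ∀ B : Set W1, ∃ g : Cp X, ∀ j : W1,
      (j ∈ B → φ g ∈ Cl e φ (q j).1.1 (q j).1.2.2) ∧
      (j ∉ B → φ g ∈ Cl e φ (q j).1.1 (q j).1.2.1) := by
    intro B
    let BB' : Set (Tup X) := {p | ∃ j, j ∈ B ∧ p = (q j).1}
    obtain ⟨k, hk⟩ := hpat BB'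
    obtain ⟨g, rfl⟩ := hs k
    refine ⟨g, fun j => ⟨fun hj => ?_, fun hj => ?_⟩⟩
    · exact (hk _ (q j).2).1 ⟨j, hj, rfl⟩
    · refine (hk _ (q j).2).2 ?_
      rintro ⟨j', hj', heq⟩
      have h1 := q.injective (Subtype.ext heq)
      subst h1
      exact hj hj'
  choose g hg1 using hpat'
  have hone : ∀ B B' : Set W1, A'.restrict (g B).1 = A'.restrict (g B').1 → B ⊆ B' := by
    intro B B' hBB j hj
    by_contra hj'
    have h1 : f (q j).1 (φ (g B)) = 1 := hf1 _ (q j).2 ((hg1 B j).1 hj)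
    have h0 : f (q j).1 (φ (g B')) = 0 := hf0 _ (q j).2 ((hg1 B' j).2 hj')
    obtain ⟨G, b, hG, hb, himg⟩ := hfac _ (q j).2 (g B) (Ioi (1/2 : ℝ)) isOpen_Ioi
        (by rw [h1]; simp only [mem_Ioi]; norm_num)
    have hb' : e (g B') ∈ Box G b := by
      intro t ht
      have htA : t ∈ A' := mem_iUnion.mpr ⟨j, hG ht⟩
      have h2 : (g B).1 t = (g B').1 t := congrFun hBB ⟨t, htA⟩
      have h3 := hb t ht
      change (g B').1 t ∈ (b t : Set ℝ)
      rw [← h2]
      exact h3
    have h4 := himg _ hb'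
    rw [h0] at h4
    simp only [mem_Ioi] at h4
    norm_num at h4
  have hinj : Function.Injective (fun B : Set W1 =>
      (⟨A'.restrict (g B).1, ⟨g B, rfl⟩⟩ : Set.range (fun g : Cp X => A'.restrict g.1))) := by
    intro B B' hBB
    have h1 : A'.restrict (g B).1 = A'.restrict (g B').1 := congrArg Subtype.val hBB
    exact Subset.antisymm (hone B B' h1) (hone B' B h1.symm)
  have hle := Cardinal.mk_le_of_injective hinj
  rw [Cardinal.mk_set, mk_W1] at hle
  exact absurd (hX A' hA') (not_lt.mpr hle)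

end Pool.Agent.Helper425.LA
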