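import Mathlib
import Pool.Agent.Helper425.LA.A1
import Pool.Agent.Helper425.LA.A2
import Pool.Agent.Helper425.LA.A3

set_option autoImplicit false

open Set Topology Filter Cardinal

namespace Pool.Agent.Helper425.LA

open Pool.Agent.Helper937.Dya

theorem main_closure (hL : (2 : Cardinal.{0}) ^ (ℵ₀ : Cardinal.{0}) < 2 ^ (ℵ₁ : Cardinal.{0}))
    (K : Type) [TopologicalSpace K] [CompactSpace K] [T2Space K]
    (hK : ∀ A : Set K, #A ≤ ℵ₁ → #(closure A) ≤ 𝔠)
    (Y : Type) [TopologicalSpace Y] [CompactSpace Y] [T2Space Y]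
    (f : {g : K → ℝ // Continuous g} → Y) (hf : Continuous f) (hs : Function.Surjective f) :
    TopologicalSpace.MetrizableSpace Y := by
  refine main_card K (fun A hA => ?_) Y f hf hs
  have hcc : CompactSpace (closure A) := isCompact_iff_compactSpace.mp isClosed_closure.isCompact
  have h1 : #(C(closure A, ℝ)) ≤ 𝔠 := by
    have := card_C (closure A) 𝔠 le_rfl (hK A hA)
    rwa [Cardinal.continuum_power_aleph0] at this
  have h2 : #(Set.range (fun g : Cp K => A.restrict g.1)) ≤ #(C(closure A, ℝ)) := by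
    let F : C(closure A, ℝ) → (A → ℝ) := fun h a => h ⟨a.1, subset_closure a.2⟩
    have hsub : Set.range (fun g : Cp K => A.restrict g.1) ⊆ Set.range F := by
      rintro _ ⟨g, rfl⟩
      exact ⟨⟨fun x => g.1 x.1, g.2.comp continuous_subtype_val⟩, rfl⟩
    exact (Cardinal.mk_le_mk_of_subset hsub).trans Cardinal.mk_range_le
  refine lt_of_le_of_lt (h2.trans h1) ?_
  rwa [Cardinal.two_power_aleph0] at hL

theorem main_seq (hL : (2 : Cardinal.{0}) ^ (ℵ₀ : Cardinal.{0}) < 2 ^ (ℵ₁ : Cardinal.{0}))
    (K : Type) [TopologicalSpace K] [CompactSpace K] [T2Space K] [SequentialSpace K]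
    (Y : Type) [TopologicalSpace Y] [CompactSpace Y] [T2Space Y]
    (f : {g : K → ℝ // Continuous g} → Y) (hf : Continuous f) (hs : Function.Surjective f) :
    TopologicalSpace.MetrizableSpace Y :=
  main_closure hL K (fun A hA => card_closure K 𝔠 Cardinal.continuum_power_aleph0
    ((Cardinal.nat_lt_continuum 2).le) A (hA.trans Cardinal.aleph_one_le_continuum)) Y f hf hs

end Pool.Agent.Helper425.LA
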