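import Mathlib
import Pool.Agent.Helper425.LA.Main

set_option autoImplicit false

open Set Topology Filter Cardinal

namespace Pool.Agent.Helper425.LA

open Pool.Agent.Helper937.Dya

/-- general criterion -/
theorem main_pow (K : Type) [TopologicalSpace K] [CompactSpace K] [T2Space K]
    (hK : ∀ A : Set K, #A ≤ ℵ₁ → ∃ κ : Cardinal.{0}, 𝔠 ≤ κ ∧ #(closure A) ≤ κ ∧
      κ ^ (ℵ₀ : Cardinal.{0}) < 2 ^ (ℵ₁ : Cardinal.{0}))
    (Y : Type) [TopologicalSpace Y] [CompactSpace Y] [T2Space Y]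
    (f : {g : K → ℝ // Continuous g} → Y) (hf : Continuous f) (hs : Function.Surjective f) :
    TopologicalSpace.MetrizableSpace Y := by
  refine main_card K (fun A hA => ?_) Y f hf hs
  obtain ⟨κ, h1, h2, h3⟩ := hK A hA
  have hcc : CompactSpace (closure A) := isCompact_iff_compactSpace.mp isClosed_closure.isCompact
  have h1 : #(C(closure A, ℝ)) ≤ κ ^ (ℵ₀ : Cardinal.{0}) := card_C (closure A) κ h1 h2
  have h2 : #(Set.range (fun g : Cp K => A.restrict g.1)) ≤ #(C(closure A, ℝ)) := by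
    let F : C(closure A, ℝ) → (A → ℝ) := fun h a => h ⟨a.1, subset_closure a.2⟩
    have hsub : Set.range (fun g : Cp K => A.restrict g.1) ⊆ Set.range F := by
      rintro _ ⟨g, rfl⟩
      exact ⟨⟨fun x => g.1 x.1, g.2.comp continuous_subtype_val⟩, rfl⟩
    exact (Cardinal.mk_le_mk_of_subset hsub).trans Cardinal.mk_range_le
  exact lt_of_le_of_lt (h2.trans h1) h3

theorem main_lots
    (hH : ∀ (L : Type) [LinearOrder L] (D : Set L), #D ≤ ℵ₁ →
      (∀ x y : L, x < y → ∃ d ∈ D, x ≤ d ∧ d ≤ y) →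
      #L ^ (ℵ₀ : Cardinal.{0}) < 2 ^ (ℵ₁ : Cardinal.{0}))
    (K : Type) [LinearOrder K] [TopologicalSpace K] [OrderTopology K] [CompactSpace K]
    (Y : Type) [TopologicalSpace Y] [CompactSpace Y] [T2Space Y]
    (f : {g : K → ℝ // Continuous g} → Y) (hf : Continuous f) (hs : Function.Surjective f) :
    TopologicalSpace.MetrizableSpace Y := by
  refine main_pow K (fun A hA => ?_) Y f hf hs
  let P : Set K := {x | ∀ a, a < x → ∃ d ∈ A, a < d ∧ d ≤ x}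
  let Q : Set K := {x | ∀ a, x < a → ∃ d ∈ A, x ≤ d ∧ d < a}
  have hAP : A ⊆ P := fun x hx a ha => ⟨x, hx, ha, le_rfl⟩
  have hAQ : A ⊆ Q := fun x hx a ha => ⟨x, hx, le_rfl, ha⟩
  have hcl : closure A ⊆ P ∪ Q := by
    intro x hx
    by_contra hcon
    rw [mem_union, not_or] at hcon
    obtain ⟨h1, h2⟩ := hcon
    simp only [P, Q, mem_setOf_eq, not_forall, not_exists, not_and] at h1 h2
    obtain ⟨a, hax, ha⟩ := h1
    obtain ⟨b, hxb, hb⟩ := h2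
    obtain ⟨d, hd, hdA⟩ := mem_closure_iff.mp hx (Set.Ioo a b) isOpen_Ioo ⟨hax, hxb⟩
    rcases le_total d x with h | h
    · exact ha d hdA hd.1 h
    · exact hb d hdA h hd.2
  have hcard : ∀ R : Set K, A ⊆ R → (∀ x ∈ R, ∀ y ∈ R, x < y → ∃ d ∈ A, x ≤ d ∧ d ≤ y) →
      #R ^ (ℵ₀ : Cardinal.{0}) < 2 ^ (ℵ₁ : Cardinal.{0}) := by
    intro R hAR hR
    refine hH R (Subtype.val ⁻¹' A) ?_ ?_
    · exact (Cardinal.mk_preimage_of_injective _ _ Subtype.val_injective).trans hA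
    · intro x y hxy
      obtain ⟨d, hd, h1, h2⟩ := hR x.1 x.2 y.1 y.2 hxy
      exact ⟨⟨d, hAR hd⟩, hd, h1, h2⟩
  have hP : #P ^ (ℵ₀ : Cardinal.{0}) < 2 ^ (ℵ₁ : Cardinal.{0}) :=
    hcard P hAP fun x _ y hy hxy => by
      obtain ⟨d, hd, h1, h2⟩ := hy x hxy
      exact ⟨d, hd, h1.le, h2⟩
  have hQ : #Q ^ (ℵ₀ : Cardinal.{0}) < 2 ^ (ℵ₁ : Cardinal.{0}) :=
    hcard Q hAQ fun x hx y _ hxy => by
      obtain ⟨d, hd, h1, h2⟩ := hx y hxy
      exact ⟨d, hd, h1, h2.le⟩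
  have hR : 𝔠 ^ (ℵ₀ : Cardinal.{0}) < 2 ^ (ℵ₁ : Cardinal.{0}) := by
    have := hH ℝ (Set.range ((↑) : ℚ → ℝ)) (Cardinal.mk_range_le.trans ?_) ?_
    · rwa [Cardinal.mk_real] at this
    · rw [Cardinal.mkRat]
      exact Cardinal.aleph0_le_aleph 1
    · intro x y hxy
      obtain ⟨q, h1, h2⟩ := exists_rat_btwn hxy
      exact ⟨q, ⟨q, rfl⟩, h1.le, h2.le⟩
  have hmax : ∀ a b : Cardinal.{0}, a ^ (ℵ₀ : Cardinal.{0}) < 2 ^ (ℵ₁ : Cardinal.{0}) →
      b ^ (ℵ₀ : Cardinal.{0}) < 2 ^ (ℵ₁ : Cardinal.{0}) →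
      (max a b) ^ (ℵ₀ : Cardinal.{0}) < 2 ^ (ℵ₁ : Cardinal.{0}) := by
    intro a b ha hb
    rcases le_total a b with h | h
    · rwa [max_eq_right h]
    · rwa [max_eq_left h]
  refine ⟨max (max #P #Q) 𝔠, le_max_right _ _, ?_, hmax _ _ (hmax _ _ hP hQ) hR⟩
  refine (Cardinal.mk_le_mk_of_subset hcl).trans ((Cardinal.mk_union_le P Q).trans ?_)
  refine (Cardinal.add_le_max _ _).trans ?_
  exact max_le (le_max_left _ _) (Cardinal.aleph0_le_continuum.trans (le_max_right _ _))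

end Pool.Agent.Helper425.LA
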